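import Mathlib
import Pool.Agent.Lib.MP_8fe54c_gt.LtFinal

/-!
# Okun-Schreve's question for fundamental groups commensurable with Artin groups

`X` is a connected Hausdorff topological `n`-manifold with (possibly empty) boundary, `n ≥ 1`, which
is aspherical: it has a contractible covering space `Y`.  A finite index subgroup `H` of its
fundamental group is isomorphic to a finite index subgroup `K` of the Artin group `Artin M` of a
Coxeter matrix `M` on a finite set `B`, and the augmented cubical chain complex of the cosets of the
standard parabolic subgroups of spherical type is exact (the modified Deligne complex is acyclic).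
`C` is any augmented complex of finitely generated free modules over the integral group ring of the
fundamental group, with bases (the orbits of cells), which is exact, for example the cellular chain
complex of the universal cover of a finite CW complex homotopy equivalent to `X`.  Then the reduced
`ℓ²`-homology of `C` vanishes in all degrees `k > n / 2`, and the `ℓ²`-Betti numbers `b_k` are zero
for `k > n / 2`.

Second part: the coset complex is exact whenever each set of pairwise related generators is
spherical (type FC) or consists of three generators with all labels at least three.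
-/

namespace Pool.Agent.Results.MP_8fe54c_gt.Artin

universe u v w t

theorem result :
    (∀ {n : ℕ} [NeZero n] {X : Type u} [TopologicalSpace X] [T2Space X]
      [ConnectedSpace X] [ChartedSpace (EuclideanHalfSpace n) X]
      {Y : Type v} [TopologicalSpace Y] [ContractibleSpace Y] {p : Y → X} (_ : IsCoveringMap p)
      (x : X) {B : Type w} [Fintype B] [LinearOrder B] (M : CoxeterMatrix B)
      (_ : OS.GP.DExact (OS.artinSys M) (OS.Spher M) ℤ)
      (H : Subgroup (FundamentalGroup X x)) [H.FiniteIndex]
      (K : Subgroup (OS.Artin M)) [K.FiniteIndex] (_ : H ≃* K)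
      (C : OS.CellComplex.{t, u} (FundamentalGroup X x)) (_ : C.IsFree) (_ : C.IsExact)
      {k : ℕ} (_ : n < 2 * k), C.harm k = ⊥ ∧ C.l2Betti k = 0) ∧
    ∀ {B : Type w} [Fintype B] [LinearOrder B] (M : CoxeterMatrix B),
      (∀ T : Finset B, (∀ i ∈ T, ∀ j ∈ T, M i j ≠ 0) →
        OS.Spher M T ∨ (T.card = 3 ∧ ∀ i ∈ T, ∀ j ∈ T, i ≠ j → 3 ≤ M i j)) →
      OS.GP.DExact (OS.artinSys M) (OS.Spher M) ℤ := by
  refine ⟨?_, fun M hM => OS.LT_dexact hM⟩
  intro n _ X _ _ _ _ Y _ _ p hp x B _ _ M hM H _ K _ e C hF hE k hk
  have h := OS.LT_okun_schreve hp x M hM H K e (C.toFreeRes hF hE) hk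
  exact ⟨C.harm_eq_bot hF hE k h, C.l2Betti_eq_zero hF hE k h⟩

end Pool.Agent.Results.MP_8fe54c_gt.Artin
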