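import Mathlib
import Pool.Agent.Lib.MP_8fe54c_gt.RbMain

/-!
# Okun-Schreve's question for uniform lattices of thick right-angled buildings

`M` is a connected Hausdorff topological `n`-manifold with (possibly empty) boundary, `n ≥ 1`, which
is aspherical: it has a contractible covering space `Y`.  `L` is a finite graph and the `G v` are
finite groups with at least three elements.  The elements of the graph product `GraphProd L G` are
the chambers of a thick right-angled building (two chambers `x`, `y` are `v`-adjacent if `x⁻¹ y` lies
in the vertex group `G v`).

The hypothesis is that a subgroup `H` of finite index of the fundamental group of `M` is a uniform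
lattice of this building: it acts freely and with finitely many orbits on the set of chambers and
preserves the adjacencies.  For example this holds if `π₁(M)` and the graph product have isomorphic
subgroups of finite index.  (A type preserving uniform lattice is torsion free if it is a subgroup of
`π₁(M)`, so its action on the chambers is free; it need not be residually finite.)

`C` is any augmented complex of finitely generated free modules over the integral group ring of the
fundamental group, with bases (the orbits of cells), which is exact.  Then the reduced
`ℓ²`-homology of `C` vanishes in all degrees `k > n / 2`, and the `ℓ²`-Betti numbers `b_k` are zero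
for `k > n / 2`.
-/

namespace Pool.Agent.Results.MP_8fe54c_gt.Building

universe u v w

theorem result {n : ℕ} [NeZero n] {M : Type u} [TopologicalSpace M] [T2Space M]
    [ConnectedSpace M] [ChartedSpace (EuclideanHalfSpace n) M]
    {Y : Type v} [TopologicalSpace Y] [ContractibleSpace Y] {p : Y → M} (hp : IsCoveringMap p)
    (x : M) {V : Type u} [Finite V] (L : SimpleGraph V) (G : V → Type u) [∀ v, Group (G v)]
    [∀ v, Finite (G v)] (h3 : ∀ v, 3 ≤ Nat.card (G v)) (H : Subgroup (FundamentalGroup M x))
    [H.FiniteIndex] [MulAction H (OS.GP.GraphProd L G)] (hH : OS.Rb.IsLattice L G H)
    (C : OS.CellComplex.{w, u} (FundamentalGroup M x)) (hF : C.IsFree) (hE : C.IsExact)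
    {k : ℕ} (hk : n < 2 * k) : C.harm k = ⊥ ∧ C.l2Betti k = 0 :=
  have h := OS.Rb.rab_main hp x L G h3 H hH (C.toFreeRes hF hE) hk
  ⟨C.harm_eq_bot hF hE k h, C.l2Betti_eq_zero hF hE k h⟩

end Pool.Agent.Results.MP_8fe54c_gt.Building
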