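import Mathlib
import Pool.Agent.Lib.MP_8fe54c_gt.ObMain

/-!
# Okun-Schreve's question for fundamental groups in the class `ClassK`

`M` is a connected Hausdorff topological `n`-manifold with (possibly empty) boundary, `n ≥ 1`, which
is aspherical: it has a contractible covering space `Y`.  Its fundamental group belongs to the class
`ClassK`, the smallest class of groups of type `FP_∞` which contains

* `low`: the groups with `b_k = 0` for all `k ≥ 2` and an element of infinite order (free groups,
  surface groups, closed aspherical `3`-manifold groups, infinite amenable groups of type `FP_∞`
  with an element of infinite order, lattices in `Isom(ℍ³)`, ...);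
* `flag`: the groups with a flag system of degree `d` and `b_k = 0` for `k > d` (commuting elements
  of infinite order along a flag complex with `H_{d-1} ≠ 0`);
* `dual`: the groups `Γ` with `b_k = 0` for `k > m / 2` which have a subgroup `A` with
  `H^i(A; 𝔽₂A) = 0` for `i < m` (closed aspherical `m`-manifolds for which the Singer conjecture is
  known, cocompact lattices, ...);
* `cusp`: the groups `Γ` with `b_k = 0` for `k > (m + 1) / 2` which have a subgroup `A` with
  `H^i(A; 𝔽₂A) = 0` for `i < m` and `dim H^m(A; 𝔽₂A) ≤ 1` and an element of which no positive power
  lies in `A` (lattices of `ℚ`-rank one, e.g. the fundamental groups of the complete hyperbolic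
  `(m + 1)`-manifolds of finite volume, `A` being the group of a cusp);

and which is closed under graph products over finite graphs (`graphProd`), commensurability
(`commens`), and actions on acyclic complexes (`act`: amalgams, HNN extensions, graphs and complexes
of groups).  All members are of type `FP_∞`.

`C` is any augmented complex of finitely generated free modules over the integral group ring of the
fundamental group, with bases (the orbits of cells), which is exact.  Then the reduced
`ℓ²`-homology of `C` vanishes in all degrees `k > n / 2`, and the `ℓ²`-Betti numbers `b_k` are zero
for `k > n / 2`.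
-/

namespace Pool.Agent.Results.MP_8fe54c_gt.ClassK

universe u v w

theorem result {n : ℕ} [NeZero n] {M : Type u} [TopologicalSpace M] [T2Space M]
    [ConnectedSpace M] [ChartedSpace (EuclideanHalfSpace n) M]
    {Y : Type v} [TopologicalSpace Y] [ContractibleSpace Y] {p : Y → M} (hp : IsCoveringMap p)
    (x : M) (hK : OS.Ob.ClassK (FundamentalGroup M x))
    (C : OS.CellComplex.{w, u} (FundamentalGroup M x)) (hF : C.IsFree) (hE : C.IsExact)
    {k : ℕ} (hk : n < 2 * k) : C.harm k = ⊥ ∧ C.l2Betti k = 0 :=
  have h := OS.Ob.main hp x hK (C.toFreeRes hF hE) hk
  ⟨C.harm_eq_bot hF hE k h, C.l2Betti_eq_zero hF hE k h⟩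

end Pool.Agent.Results.MP_8fe54c_gt.ClassK
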