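import Mathlib
import Pool.Agent.Lib.MP_8fe54c_gt.BBMain
import Pool.Agent.Lib.MP_8fe54c_gt.Res

/-!
# Okun-Schreve's question for manifolds whose fundamental group is virtually a coabelian subgroup
of a right-angled Artin group

`M` is a connected Hausdorff topological `n`-manifold with (possibly empty) boundary, `n ≥ 1`, which
is aspherical: it has a contractible covering space `Y`.  A finite index subgroup `H` of its
fundamental group is isomorphic to a finite index subgroup `K` of a coabelian subgroup `N` of a
finite index subgroup `A₀` of the right-angled Artin group `RAAG G` of a finite graph `G`: `N` is a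
subgroup of `A₀` which contains all commutators of elements of `A₀` (for example `A₀ = RAAG G` and
`N` a Bestvina-Brady group, the kernel of a homomorphism to the integers, or the kernel of any
homomorphism to an abelian group).  `C` is any augmented complex of finitely generated free modules
over the integral group ring of the fundamental group, with bases (the orbits of cells), which
is exact, for example the cellular chain complex of the universal cover of a finite CW complex
homotopy equivalent to `M`.  Then the reduced `ℓ²`-homology of `C` vanishes in all degrees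
`k > n / 2`, and the `ℓ²`-Betti numbers `b_k` are zero for `k > n / 2`.
-/

namespace Pool.Agent.Results.MP_8fe54c_gt.Coabelian

theorem result {n : ℕ} [NeZero n] {M : Type*} [TopologicalSpace M] [T2Space M]
    [ConnectedSpace M] [ChartedSpace (EuclideanHalfSpace n) M]
    {Y : Type*} [TopologicalSpace Y] [ContractibleSpace Y] {p : Y → M} (hp : IsCoveringMap p)
    (x : M) {V : Type*} [Finite V] (G : SimpleGraph V)
    (H : Subgroup (FundamentalGroup M x)) [H.FiniteIndex]
    (A₀ N K : Subgroup (OS.RAAG G)) [A₀.FiniteIndex] (hN : N ≤ A₀)
    (hab : ∀ a ∈ A₀, ∀ b ∈ A₀, a * b * a⁻¹ * b⁻¹ ∈ N)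
    (hK : K ≤ N) (hKf : (K.subgroupOf N).FiniteIndex) (e : H ≃* K)
    (C : OS.CellComplex (FundamentalGroup M x)) (hF : C.IsFree) (hE : C.IsExact)
    {k : ℕ} (hk : n < 2 * k) : C.harm k = ⊥ ∧ C.l2Betti k = 0 :=
  have h := OS.GP.okun_schreve_coab hp x G H A₀ N K ⟨hN, hab⟩ hK hKf e (C.toFreeRes hF hE) hk
  ⟨C.harm_eq_bot hF hE k h, C.l2Betti_eq_zero hF hE k h⟩

end Pool.Agent.Results.MP_8fe54c_gt.Coabelian
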